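import Pool.Agent.Helper61.CAR.GoalsQ
import Pool.Agent.Helper94.CP.QF

/-!
# Packet EZ: the kernel of `ρ` is of type I
-/

set_option autoImplicit false

open scoped ComplexOrder Topology
open Filter

namespace Pool.Agent.Helper52.CAR

open Pool.Agent.Helper61.CAR Pool.Agent.Helper34.CAR Pool.Agent.Helper39.Uct

theorem cont_hom {A B : Type} [NonUnitalCStarAlgebra A] [NonUnitalCStarAlgebra B]
    (f : A →⋆ₙₐ[ℂ] B) : Continuous f :=
  AddMonoidHomClass.continuous_of_bound f 1
    (by simpa only [one_mul] using NonUnitalStarAlgHom.norm_apply_le f)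

/-- The matrix unit `e_pp`. -/
noncomputable def mu {J : Type} [DecidableEq J] (p : J) : CStarMatrix J J ℂ :=
  CStarMatrix.ofMatrix (Matrix.single p p 1)

theorem mu_mul_mul {J : Type} [Fintype J] [DecidableEq J] (p : J) (a : CStarMatrix J J ℂ) :
    mu p * a * mu p = a p p • mu p := by
  ext i j
  have h : (Matrix.single p p (1 : ℂ)) * (CStarMatrix.ofMatrix.symm a) * Matrix.single p p (1 : ℂ)
      = Matrix.single p p (1 * (CStarMatrix.ofMatrix.symm a) p p * 1) :=
    Matrix.single_mul_mul_single _ _ _ _ _ _ _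
  have h' := congrFun (congrFun h i) j
  have h2 : (mu p * a * mu p) i j = ((Matrix.single p p (1 : ℂ)) *
    (CStarMatrix.ofMatrix.symm a) * Matrix.single p p (1 : ℂ)) i j := rfl
  rw [h2, h']
  show Matrix.single p p (1 * a p p * 1) i j = a p p • Matrix.single p p (1 : ℂ) i j
  rw [← Matrix.smul_apply, Matrix.smul_single]
  simp

theorem star_mu {J : Type} [DecidableEq J] (p : J) :
    star (mu p : CStarMatrix J J ℂ) = mu p := by
  ext i j
  show star (Matrix.single p p (1 : ℂ) j i) = Matrix.single p p (1 : ℂ) i j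
  simp only [Matrix.single, Matrix.of_apply]
  by_cases h : p = i ∧ p = j
  · simp [h.1.symm, h.2.symm]
  · have h' : ¬ (p = j ∧ p = i) := fun h2 => h ⟨h2.2, h2.1⟩
    simp [h, h']

theorem sum_mu {J : Type} [Fintype J] [DecidableEq J] :
    ∑ p, (mu p : CStarMatrix J J ℂ) = 1 := by
  have h : ∑ p : J, Matrix.single p p (1 : ℂ) = 1 := Matrix.sum_single_one
  exact h

theorem ez : S_EZ := by
  intro Y _ S E _ _ x ρ hE
  -- uniqueness
  have huniq : ∀ u v : E, ρ u = ρ v → (∀ n, x n u = x n v) → u = v := by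
    intro u v h1 h2
    have h3 : ‖u - v‖ ≤ 0 := by
      refine hE.norm_le (u - v) 0 le_rfl (fun n => ?_) ?_
      · rw [map_sub, h2, sub_self, norm_zero]
      · rw [map_sub, h1, sub_self, norm_zero]
    exact sub_eq_zero.1 (norm_le_zero_iff.1 h3)
  -- the kernel
  let V : Submodule ℂ E :=
    { carrier := {e | ρ e = 0}
      add_mem' := by
        intro a b ha hb
        show ρ (a + b) = 0
        rw [map_add, show ρ a = 0 from ha, show ρ b = 0 from hb, add_zero]
      zero_mem' := map_zero ρ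
      smul_mem' := by
        intro c a ha
        show ρ (c • a) = 0
        rw [map_smul, show ρ a = 0 from ha, smul_zero] }
  have hVcl : IsClosed (V : Set E) := isClosed_eq (cont_hom ρ) continuous_const
  obtain ⟨Z, _, ι, hinj, hr⟩ := Pool.Agent.Helper10.Uct.exists_alg V hVcl
    (fun a ha b _ => by
      show ρ (a * b) = 0
      rw [map_mul, show ρ a = 0 from ha, zero_mul])
    (fun a ha => by
      show ρ (star a) = 0
      rw [map_star, show ρ a = 0 from ha, star_zero])
  have hmem : ∀ e, ρ e = 0 ↔ e ∈ Set.range ι := by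
    intro e
    rw [hr]
    rfl
  have hsep : TopologicalSpace.SeparableSpace Z := Pool.Agent.Helper94.CP.sep_of_inj ι hinj
  refine ⟨Z, inferInstance, ι, hsep, ?_, hinj, hmem⟩
  have hρι : ∀ z : Z, ρ (ι z) = 0 := fun z => (hmem _).2 ⟨z, rfl⟩
  -- uniqueness in `Z`
  have huz : ∀ u v : Z, (∀ n, x n (ι u) = x n (ι v)) → u = v := by
    intro u v h
    exact hinj (huniq _ _ (by rw [hρι, hρι]) h)
  -- the elements `[n; a]`
  have hex : ∀ (n : ℕ) (a : CStarMatrix (S.J n) (S.J n) ℂ),
      ∃ z : Z, x n (ι z) = a ∧ ∀ k, k ≠ n → x k (ι z) = 0 := by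
    intro n a
    obtain ⟨e, he1, he2⟩ := hE.ex (Pi.single n a) 0 (by
      refine tendsto_const_nhds.congr' ?_
      filter_upwards [eventually_gt_atTop n] with k hk
      rw [map_zero, sub_zero, Pi.single_eq_of_ne (Nat.ne_of_gt hk), norm_zero])
    obtain ⟨z, rfl⟩ := (hmem e).1 he2
    refine ⟨z, ?_, fun k hk => ?_⟩
    · rw [he1, Pi.single_eq_same]
    · rw [he1, Pi.single_eq_of_ne hk]
  choose c hc1 hc2 using hex
  -- facts about `c`
  have hcstar : ∀ (n : ℕ) (a : CStarMatrix (S.J n) (S.J n) ℂ), star (c n a) = c n (star a) := by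
    intro n a
    refine huz _ _ (fun k => ?_)
    rw [map_star, map_star]
    by_cases hk : k = n
    · subst hk
      rw [hc1, hc1]
    · rw [hc2 n _ k hk, hc2 n _ k hk, star_zero]
  have hcsum : ∀ (n : ℕ) (f : S.J n → CStarMatrix (S.J n) (S.J n) ℂ),
      c n (∑ p, f p) = ∑ p, c n (f p) := by
    intro n f
    refine huz _ _ (fun k => ?_)
    rw [map_sum, map_sum]
    by_cases hk : k = n
    · subst hk
      rw [hc1]
      exact Finset.sum_congr rfl (fun p _ => (hc1 _ _).symm)
    · rw [hc2 n _ k hk]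
      exact (Finset.sum_eq_zero (fun p _ => hc2 n _ k hk)).symm
  have hcone : ∀ (n : ℕ) (a : CStarMatrix (S.J n) (S.J n) ℂ), c n 1 * c n a = c n a := by
    intro n a
    refine huz _ _ (fun k => ?_)
    rw [map_mul, map_mul]
    by_cases hk : k = n
    · subst hk
      rw [hc1, hc1, one_mul]
    · rw [hc2 n _ k hk, hc2 n _ k hk, mul_zero]
  have hccor : ∀ (n : ℕ) (p : S.J n) (z : Z),
      c n (mu p) * z * c n (mu p) = (x n (ι z) p p) • c n (mu p) := by
    intro n p z
    refine huz _ _ (fun k => ?_)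
    rw [map_mul, map_mul, map_mul, map_mul, map_smul, map_smul]
    by_cases hk : k = n
    · subst hk
      rw [hc1, mu_mul_mul]
    · rw [hc2 n _ k hk, mul_zero, smul_zero]
  intro A' _ π hπ hnt
  -- some `[n; e_pp]` is not in the kernel of `π`
  have hne : ∃ (n : ℕ) (p : S.J n), π (c n (mu p)) ≠ 0 := by
    by_contra hcon
    push Not at hcon
    have h1 : ∀ (n : ℕ) (a : CStarMatrix (S.J n) (S.J n) ℂ), π (c n a) = 0 := by
      intro n a
      rw [← hcone n a, map_mul, ← sum_mu, hcsum, map_sum,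
        Finset.sum_eq_zero (fun p _ => hcon n p), zero_mul]
    have h2 : ∀ z : Z, π z = 0 := by
      intro z
      refine norm_le_zero_iff.1 (le_of_forall_pos_le_add (fun ε hε => ?_))
      have hlim := hE.lim (ι z)
      have hev : ∀ᶠ n in atTop, ‖x n (ι z)‖ ≤ ε := by
        have h3 := hlim.eventually (ge_mem_nhds hε)
        filter_upwards [h3] with n hn
        rw [hρι, map_zero, sub_zero] at hn
        exact hn
      obtain ⟨N, hN⟩ := eventually_atTop.1 hev
      have h4 : π (z - ∑ n ∈ Finset.range N, c n (x n (ι z))) = π z := by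
        rw [map_sub, map_sum, Finset.sum_eq_zero (fun n _ => h1 n _), sub_zero]
      rw [← h4, zero_add]
      refine (NonUnitalStarAlgHom.norm_apply_le π _).trans ?_
      rw [← NonUnitalStarAlgHom.norm_map ι hinj]
      refine hE.norm_le _ ε hε.le (fun k => ?_) ?_
      · rw [map_sub, map_sub, map_sum, map_sum]
        by_cases hk : k < N
        · have h5 : ∑ n ∈ Finset.range N, x k (ι (c n (x n (ι z)))) = x k (ι z) := by
            rw [Finset.sum_eq_single_of_mem k (Finset.mem_range.2 hk)
              (fun n _ hn => hc2 n _ k (Ne.symm hn)), hc1]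
          rw [h5, sub_self, norm_zero]
          exact hε.le
        · have h5 : ∑ n ∈ Finset.range N, x k (ι (c n (x n (ι z)))) = 0 := by
            refine Finset.sum_eq_zero (fun n hn => hc2 n _ k ?_)
            intro h6
            exact hk (h6 ▸ Finset.mem_range.1 hn)
          rw [h5, sub_zero]
          exact hN k (not_lt.1 hk)
      · rw [hρι, norm_zero]
        exact hε.le
    obtain ⟨u, v, huv⟩ := hnt
    obtain ⟨a, rfl⟩ := hπ u
    obtain ⟨b, rfl⟩ := hπ v
    exact huv (by rw [h2, h2])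
  obtain ⟨n, p, hnp⟩ := hne
  refine ⟨π (c n (mu p)), ?_, hnp, ?_⟩
  · rw [IsSelfAdjoint, ← map_star, hcstar, star_mu]
  · have hkey : ∀ u : A', ∃ l : ℂ, π (c n (mu p)) * u * π (c n (mu p)) = l • π (c n (mu p)) := by
      intro u
      obtain ⟨z, rfl⟩ := hπ u
      exact ⟨x n (ι z) p p, by rw [← map_mul, ← map_mul, hccor, map_smul]⟩
    intro u v
    obtain ⟨l, hl⟩ := hkey u
    obtain ⟨m, hm⟩ := hkey v
    rw [hl, hm, smul_mul_smul_comm, smul_mul_smul_comm, mul_comm l m]

end Pool.Agent.Helper52.CAR
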