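import Pool.Agent.Helper34.CAR.GoalsB
import Pool.Agent.Helper94.CP.QF

/-!
# Packet EXT: extension of a compatible family of *-homomorphisms

The graph `V` of the family, closed in `H × M`, is a C*-algebra; its projection to `H` is injective
with closed dense range, so it is bijective, and `F` is the inverse followed by the projection to
`M`.
-/

set_option autoImplicit false

open scoped ComplexOrder Topology
open Filter

namespace Pool.Agent.Helper52.CAR

open Pool.Agent.Helper34.CAR Pool.Agent.Helper39.Uct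

theorem ext : S_EXT := by
  intro H M _ _ A _ ι f hinj hcomp hdense
  have hup : ∀ (i d : ℕ) (x : A i), ∃ y : A (i + d), ι (i + d) y = ι i x ∧ f (i + d) y = f i x := by
    intro i d x
    induction d with
    | zero => exact ⟨x, rfl, rfl⟩
    | succ d ih =>
      obtain ⟨y, h1, h2⟩ := ih
      obtain ⟨z, h3, h4⟩ := hcomp (i + d) y
      exact ⟨z, h3.trans h1, h4.trans h2⟩
  have hle : ∀ (i k : ℕ) (_ : i ≤ k) (x : A i), ∃ y : A k, ι k y = ι i x ∧ f k y = f i x := by
    intro i k h x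
    obtain ⟨d, rfl⟩ := Nat.exists_eq_add_of_le h
    exact hup i d x
  -- the graph
  let W : Submodule ℂ (H × M) :=
    { carrier := {z | ∃ (i : ℕ) (x : A i), z = (ι i x, f i x)}
      add_mem' := by
        rintro _ _ ⟨i, x, rfl⟩ ⟨j, y, rfl⟩
        obtain ⟨x', h1, h2⟩ := hle i (max i j) (le_max_left _ _) x
        obtain ⟨y', h3, h4⟩ := hle j (max i j) (le_max_right _ _) y
        refine ⟨max i j, x' + y', ?_⟩
        rw [map_add, map_add, h1, h2, h3, h4]
        rfl
      zero_mem' := ⟨0, 0, by rw [map_zero, map_zero]; rfl⟩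
      smul_mem' := by
        rintro c _ ⟨i, x, rfl⟩
        exact ⟨i, c • x, by rw [map_smul, map_smul]; rfl⟩ }
  have hWmul : ∀ a ∈ (W : Set (H × M)), ∀ b ∈ (W : Set (H × M)), a * b ∈ (W : Set (H × M)) := by
    rintro _ ⟨i, x, rfl⟩ _ ⟨j, y, rfl⟩
    obtain ⟨x', h1, h2⟩ := hle i (max i j) (le_max_left _ _) x
    obtain ⟨y', h3, h4⟩ := hle j (max i j) (le_max_right _ _) y
    refine ⟨max i j, x' * y', ?_⟩
    rw [map_mul, map_mul, h1, h2, h3, h4]
    rfl
  have hWstar : ∀ a ∈ (W : Set (H × M)), star a ∈ (W : Set (H × M)) := by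
    rintro _ ⟨i, x, rfl⟩
    exact ⟨i, star x, by rw [map_star, map_star]; rfl⟩
  let V : Submodule ℂ (H × M) := W.topologicalClosure
  have hV : (V : Set (H × M)) = closure (W : Set (H × M)) := rfl
  obtain ⟨D, _, j, hj, hjr⟩ := Pool.Agent.Helper10.Uct.exists_alg V
    (Submodule.isClosed_topologicalClosure W)
    (fun a ha b hb => map_mem_closure₂ continuous_mul ha hb hWmul)
    (fun a ha => map_mem_closure continuous_star ha hWstar)
  -- the bound on the graph
  have hbound : ∀ z ∈ (V : Set (H × M)), ‖z.2‖ ≤ ‖z.1‖ := by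
    intro z hz
    have hcl : IsClosed {z : H × M | ‖z.2‖ ≤ ‖z.1‖} :=
      isClosed_le (continuous_snd.norm) (continuous_fst.norm)
    refine closure_minimal ?_ hcl hz
    rintro _ ⟨i, x, rfl⟩
    show ‖f i x‖ ≤ ‖ι i x‖
    rw [NonUnitalStarAlgHom.norm_map (ι i) (hinj i)]
    exact NonUnitalStarAlgHom.norm_apply_le (f i) x
  have hjmem : ∀ d : D, j d ∈ (V : Set (H × M)) := by
    intro d
    rw [← hjr]
    exact ⟨d, rfl⟩
  let p1 : D →⋆ₙₐ[ℂ] H := (NonUnitalStarAlgHom.fst ℂ H M).comp j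
  let p2 : D →⋆ₙₐ[ℂ] M := (NonUnitalStarAlgHom.snd ℂ H M).comp j
  have hp1 : ∀ d, p1 d = (j d).1 := fun d => rfl
  have hp2 : ∀ d, p2 d = (j d).2 := fun d => rfl
  have hp1inj : Function.Injective p1 := by
    intro d d' h
    apply hj
    have h1 : ‖(j (d - d')).2‖ ≤ ‖(j (d - d')).1‖ := hbound _ (hjmem _)
    rw [map_sub] at h1
    have h2 : (j d).1 - (j d').1 = 0 := sub_eq_zero.2 h
    have h3 : ‖(j d).2 - (j d').2‖ ≤ ‖(j d).1 - (j d').1‖ := h1
    rw [h2, norm_zero] at h3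
    exact Prod.ext h (sub_eq_zero.1 (norm_le_zero_iff.1 h3))
  have hgraph : ∀ (i : ℕ) (x : A i), ∃ d : D, p1 d = ι i x ∧ p2 d = f i x := by
    intro i x
    have h1 : ((ι i x, f i x) : H × M) ∈ (V : Set (H × M)) := subset_closure ⟨i, x, rfl⟩
    rw [← hjr] at h1
    obtain ⟨d, hd⟩ := h1
    exact ⟨d, by rw [hp1, hd], by rw [hp2, hd]⟩
  have hp1sur : Set.range p1 = Set.univ := by
    have hcl : IsClosed (Set.range p1) := t_RC D H p1
    rw [← hcl.closure_eq, ← dense_iff_closure_eq]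
    refine hdense.mono ?_
    intro z hz
    obtain ⟨i, hi⟩ := Set.mem_iUnion.1 hz
    obtain ⟨x, rfl⟩ := hi
    obtain ⟨d, hd, -⟩ := hgraph i x
    exact ⟨d, hd⟩
  obtain ⟨τ, hτ⟩ := Pool.Agent.Helper10.Uct.lift_hom (NonUnitalStarAlgHom.id ℂ H) p1 hp1inj
    (by rw [hp1sur]; exact Set.subset_univ _)
  refine ⟨p2.comp τ, fun i x => ?_⟩
  obtain ⟨d, hd1, hd2⟩ := hgraph i x
  have h1 : τ (ι i x) = d := by
    apply hp1inj
    rw [hτ, hd1]
    rfl
  show p2 (τ (ι i x)) = f i x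
  rw [h1, hd2]

end Pool.Agent.Helper52.CAR
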