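import Pool.Agent.Helper34.CAR.GoalsA

/-!
# Packet PAD: padding a step by copies of a character
-/

set_option autoImplicit false

open scoped ComplexOrder

namespace Pool.Agent.Helper52.CAR

open Pool.Agent.Helper34.CAR Pool.Agent.Helper39.Uct

variable {B C P : Type} [CStarAlgebra B] [Fintype C] [DecidableEq C] [Fintype P] [DecidableEq P]

/-- The entries of the block sum. -/
noncomputable def bsf (a : Mt C B) (b : Mt P B) : Mt (C ⊕ P) B :=
  Mt.of fun x y => Sum.elim (fun i => Sum.elim (fun j => a i j) (fun _ => 0) y)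
    (fun p => Sum.elim (fun _ => 0) (fun q => b p q) y) x

@[simp] theorem bsf_ll (a : Mt C B) (b : Mt P B) (i j : C) : bsf a b (.inl i) (.inl j) = a i j :=
  rfl

@[simp] theorem bsf_lr (a : Mt C B) (b : Mt P B) (i : C) (q : P) :
    bsf a b (.inl i) (.inr q) = 0 := rfl

@[simp] theorem bsf_rl (a : Mt C B) (b : Mt P B) (p : P) (j : C) :
    bsf a b (.inr p) (.inl j) = 0 := rfl

@[simp] theorem bsf_rr (a : Mt C B) (b : Mt P B) (p q : P) : bsf a b (.inr p) (.inr q) = b p q :=
  rfl

/-- The block sum of matrices. -/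
noncomputable def bs : Mt C B × Mt P B →⋆ₐ[ℂ] Mt (C ⊕ P) B where
  toFun a := bsf a.1 a.2
  map_one' := by
    ext x y
    rcases x with i | p <;> rcases y with j | q <;>
      simp [Mt.one_apply]
  map_mul' a b := by
    ext x y
    rcases x with i | p <;> rcases y with j | q <;>
      simp [Fintype.sum_sum_type]
  map_zero' := by
    ext x y
    rcases x with i | p <;> rcases y with j | q <;> simp
  map_add' a b := by
    ext x y
    rcases x with i | p <;> rcases y with j | q <;> simp
  commutes' c := by
    ext x y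
    rcases x with i | p <;> rcases y with j | q <;>
      simp [Mt.algebraMap_apply]
  map_star' a := by
    ext x y
    rcases x with i | p <;> rcases y with j | q <;> simp

theorem bs_apply (a : Mt C B) (b : Mt P B) : bs (a, b) = bsf a b := rfl

theorem pad : S_PAD := by
  intro B _ θ χ F ε C P _ _ _ _ c0 c1 K w hε hK
  obtain ⟨h01, hw1, hw2, h0, h1, hoff, hsc, happ⟩ := hK
  let K2 : B →⋆ₐ[ℂ] Mt P B := (StarAlgHom.ofId ℂ (Mt P B)).comp χ
  have hK2 : ∀ b, K2 b = algebraMap ℂ (Mt P B) (χ b) := fun b => rfl
  let K' : B →⋆ₐ[ℂ] Mt (C ⊕ P) B := bs.comp (K.prod K2)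
  have hK' : ∀ b, K' b = bsf (K b) (K2 b) := fun b => rfl
  refine ⟨K', bs (w, 1), ?_, ?_, ?_, ?_, ?_, ?_, ?_, ?_⟩
  · exact fun h => h01 (Sum.inl.inj h)
  · rw [← map_star, ← map_mul]
    have : star (w, (1 : Mt P B)) * (w, (1 : Mt P B)) = 1 := by
      rw [Prod.star_def, Prod.mk_mul_mk, star_one, one_mul, hw1]
      rfl
    rw [this, map_one]
  · rw [← map_star, ← map_mul]
    have : (w, (1 : Mt P B)) * star (w, (1 : Mt P B)) = 1 := by
      rw [Prod.star_def, Prod.mk_mul_mk, star_one, one_mul, hw2]
      rfl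
    rw [this, map_one]
  · intro b
    rw [hK', bsf_ll, h0]
  · intro b
    rw [hK', bsf_ll, h1]
  · intro b x y hxy h
    rw [hK']
    rcases x with i | p
    · rcases y with j | q
      · rw [bsf_ll]
        refine hoff b i j (fun e => hxy (by rw [e])) ?_
        rcases h with h | h | h | h
        · exact Or.inl (Sum.inl.inj h)
        · exact Or.inr (Or.inl (Sum.inl.inj h))
        · exact Or.inr (Or.inr (Or.inl (Sum.inl.inj h)))
        · exact Or.inr (Or.inr (Or.inr (Sum.inl.inj h)))
      · rfl
    · rcases y with j | q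
      · rfl
      · rcases h with h | h | h | h <;> cases h
  · intro b x y hx0 hx1 hy0 hy1
    rw [hK']
    rcases x with i | p
    · rcases y with j | q
      · rw [bsf_ll]
        exact hsc b i j (fun e => hx0 (by rw [e])) (fun e => hx1 (by rw [e]))
          (fun e => hy0 (by rw [e])) (fun e => hy1 (by rw [e]))
      · exact ⟨0, by rw [bsf_lr, map_zero]⟩
    · rcases y with j | q
      · exact ⟨0, by rw [bsf_rl, map_zero]⟩
      · rw [bsf_rr, hK2, Mt.algebraMap_apply]
        by_cases hpq : p = q
        · exact ⟨χ b, by rw [if_pos hpq]⟩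
        · exact ⟨0, by rw [if_neg hpq, map_zero]⟩
  · intro b hb
    obtain ⟨x, hx⟩ := happ b hb
    refine ⟨fun s t => Sum.elim (fun i => Sum.elim (fun j => x i j) (fun _ => 0) t)
      (fun p => Sum.elim (fun _ => 0) (fun q => if p = q then χ b else 0) t) s, ?_⟩
    have hscal : (Mt.scal (fun s t => Sum.elim (fun i => Sum.elim (fun j => x i j) (fun _ => 0) t)
        (fun p => Sum.elim (fun _ => 0) (fun q => if p = q then χ b else 0) t) s) :
        Mt (C ⊕ P) B) = bs (Mt.scal x, K2 b) := by
      rw [bs_apply]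
      ext s t
      rcases s with i | p <;> rcases t with j | q
      · rfl
      · simp
      · simp
      · rw [Mt.scal_apply, bsf_rr, hK2, Mt.algebraMap_apply]
        show algebraMap ℂ B (if p = q then χ b else 0) = _
        split_ifs
        · rfl
        · exact map_zero _
    rw [hscal]
    have hdiff : K' b - star (bs (w, (1 : Mt P B))) * bs (Mt.scal x, K2 b) * bs (w, 1) =
        bs (K b - star w * Mt.scal x * w, 0) := by
      have e1 : K' b = bs (K b, K2 b) := rfl
      rw [e1, ← map_star, ← map_mul, ← map_mul, ← map_sub]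
      congr 1
      rw [Prod.star_def, Prod.mk_mul_mk, Prod.mk_mul_mk, Prod.mk_sub_mk, star_one, one_mul,
        mul_one, sub_self]
    rw [hdiff]
    refine lt_of_le_of_lt (NonUnitalStarAlgHom.norm_apply_le bs _) ?_
    rw [Prod.norm_def, norm_zero]
    exact max_lt hx hε

end Pool.Agent.Helper52.CAR
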