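import Pool.Agent.Helper34.CAR.GoalsB

/-!
# Packet PIC: a class with the permanence properties contains finite powers
-/

set_option autoImplicit false

open scoped ComplexOrder

namespace Pool.Agent.Helper52.CAR

open Pool.Agent.Helper34.CAR Pool.Agent.Helper39.Uct

theorem typeI_of_subsingleton {A : Type} [NonUnitalCStarAlgebra A] (h : Subsingleton A) :
    IsTypeI A := by
  intro A' _ π hπ hnt
  obtain ⟨u, v, huv⟩ := hnt
  obtain ⟨a, rfl⟩ := hπ u
  obtain ⟨b, rfl⟩ := hπ v
  exact absurd (by rw [Subsingleton.elim a b]) huv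

/-- `a ↦ (a, 0, .., 0)`. -/
noncomputable def inZero (A : Type) [NonUnitalCStarAlgebra A] (n : ℕ) :
    A →⋆ₙₐ[ℂ] (Fin (n + 1) → A) where
  toFun a := Fin.cons a 0
  map_smul' c a := by
    funext i
    refine Fin.cases ?_ (fun j => ?_) i
    · rfl
    · show (0 : A) = c • (0 : A)
      rw [smul_zero]
  map_zero' := by
    funext i
    refine Fin.cases ?_ (fun j => ?_) i <;> rfl
  map_add' a b := by
    funext i
    refine Fin.cases ?_ (fun j => ?_) i
    · rfl
    · show (0 : A) = 0 + 0
      rw [add_zero]
  map_mul' a b := by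
    funext i
    refine Fin.cases ?_ (fun j => ?_) i
    · rfl
    · show (0 : A) = 0 * 0
      rw [mul_zero]
  map_star' a := by
    funext i
    refine Fin.cases ?_ (fun j => ?_) i
    · rfl
    · show (0 : A) = star (0 : A)
      rw [star_zero]

/-- `x ↦ (x 1, .., x n)`. -/
noncomputable def tl (A : Type) [NonUnitalCStarAlgebra A] (n : ℕ) :
    (Fin (n + 1) → A) →⋆ₙₐ[ℂ] (Fin n → A) where
  toFun x := fun i => x i.succ
  map_smul' _ _ := rfl
  map_zero' := rfl
  map_add' _ _ := rfl
  map_mul' _ _ := rfl
  map_star' _ := rfl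

theorem pic : S_PIC := by
  intro 𝒞 hP A _ _ hA n
  induction n with
  | zero => exact hP.typeI (Fin 0 → A) (typeI_of_subsingleton inferInstance)
  | succ n ih =>
    refine hP.ext A (Fin (n + 1) → A) (Fin n → A) (inZero A n) (tl A n) ?_ ?_ ?_ hA ih
    · intro a b h
      exact congrFun h 0
    · intro y
      exact ⟨Fin.cons 0 y, rfl⟩
    · intro x
      constructor
      · intro h
        refine ⟨x 0, ?_⟩
        funext i
        refine Fin.cases ?_ (fun j => ?_) i
        · rfl
        · exact (congrFun h j).symm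
      · rintro ⟨a, rfl⟩
        rfl

end Pool.Agent.Helper52.CAR
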